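import Pool.Agent.H965R5.Rig.Step

/-!
# For every `k` there is an algebra with infinitely many summands of `k`-rigid modules

For every field `K` and every `k` we construct a finite-dimensional, connected, non-semisimple
`K`-algebra `A` with `o_k(A) = ∞`. So the number `k` asked for in Q1 cannot be chosen uniformly,
over any field.

The algebra is the iterated Kronecker ring `Kr (Kr (... K))`, where `Kr A` is the triangular matrix
ring of the matrices `(b u v; 0 a 0; 0 0 a)` over `A`. A module over `Kr A` is a pair of parallel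
maps of `A`-modules. The modules are obtained by iterating `P n ↦ (P n ^ (n+1) ⇉ P n ^ (n+2))`.
-/

set_option autoImplicit false
universe w v u

open CategoryTheory CategoryTheory.Abelian CategoryTheory.Limits

namespace Pool.Agent.Results.MP_b2fb47_al.KRigidInfinite

/-- `X` is `k`-rigid: all self-extensions of degree `1, ..., k` vanish. -/
def IsRigid {A : Type u} [Ring A] (k : ℕ) (X : ModuleCat.{u} A) : Prop :=
  ∀ i, 1 ≤ i → i ≤ k → ∀ z : Ext.{u} X X i, z = 0

/-- `X` is indecomposable: it is nonzero and its only idempotent endomorphisms are `0` and `1`. -/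
def IsIndec {A : Type u} [Ring A] (X : ModuleCat.{u} A) : Prop :=
  Nontrivial X ∧ ∀ e : X ⟶ X, e ≫ e = e → e = 0 ∨ e = 𝟙 X

/-- `S` is a direct summand of `X`. -/
def IsSummand {A : Type u} [Ring A] (S X : ModuleCat.{u} A) : Prop :=
  ∃ (s : S ⟶ X) (t : X ⟶ S), s ≫ t = 𝟙 S

/-- `A` is a finite-dimensional, connected, non-semisimple `K`-algebra. -/
def IsAlg (K A : Type u) [Field K] [Ring A] [Algebra K A] : Prop :=
  Module.Finite K A ∧ Nontrivial A ∧
    (∀ c : A, c * c = c → (∀ x, c * x = x * c) → c = 0 ∨ c = 1) ∧ ¬ IsSemisimpleRing A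

/-- `A` has finitely generated `k`-rigid modules with arbitrarily many pairwise non-isomorphic
indecomposable direct summands, i.e. `o_k(A) = ∞`. -/
def OInfinite (A : Type u) [Ring A] (k : ℕ) : Prop :=
  ∀ N : ℕ, ∃ X : ModuleCat.{u} A, Module.Finite A X ∧ IsRigid k X ∧
    ∃ S : Fin N → ModuleCat.{u} A, (∀ i, IsIndec (S i)) ∧ (∀ i, IsSummand (S i) X) ∧
      ∀ i j, i ≠ j → IsEmpty (S i ≅ S j)

section
variable {C : Type u} [Category.{v} C] [Abelian C] [HasExt.{w} C]

lemma ext_tot {ι : Type} [Fintype ι] {S : ι → C} {X : C} (s : ∀ i, S i ⟶ X)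
    (t : ∀ i, X ⟶ S i) (tot : ∑ i, t i ≫ s i = 𝟙 X) (p : ℕ)
    (h : ∀ i j, ∀ z : Ext.{w} (S i) (S j) p, z = 0) (ξ : Ext.{w} X X p) : ξ = 0 := by
  have left : ∀ (Y : C) (ζ : Ext.{w} X Y p),
      (∀ i, (Ext.mk₀ (s i)).comp ζ (zero_add p) = 0) → ζ = 0 := by
    intro Y ζ hz
    let φ : (X ⟶ X) →+ Ext.{w} X Y p :=
      AddMonoidHom.mk' (fun f => (Ext.mk₀ f).comp ζ (zero_add p)) (by
        intro f g
        rw [Ext.mk₀_add, Ext.add_comp])
    have h1 : φ (𝟙 X) = ζ := Ext.mk₀_id_comp ζ
    rw [← h1, ← tot, map_sum]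
    refine Finset.sum_eq_zero fun k _ => ?_
    change (Ext.mk₀ (t k ≫ s k)).comp ζ (zero_add p) = 0
    rw [← Ext.mk₀_comp_mk₀_assoc, hz k]
    simp
  let φ : (X ⟶ X) →+ Ext.{w} X X p :=
    AddMonoidHom.mk' (fun f => ξ.comp (Ext.mk₀ f) (add_zero p)) (by
      intro f g
      rw [Ext.mk₀_add, Ext.comp_add])
  have h1 : φ (𝟙 X) = ξ := Ext.comp_mk₀_id ξ
  rw [← h1, ← tot, map_sum]
  refine Finset.sum_eq_zero fun k _ => ?_
  change ξ.comp (Ext.mk₀ (t k ≫ s k)) (add_zero p) = 0
  have h2 : ξ.comp (Ext.mk₀ (t k)) (add_zero p) = 0 := left _ _ fun i => h i k _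
  rw [← Ext.mk₀_comp_mk₀, ← Ext.comp_assoc ξ _ _ (add_zero p) (zero_add 0) (by omega), h2]
  simp
end

lemma pi_tot {A : Type u} [Ring A] {ι : Type} [Fintype ι] [DecidableEq ι]
    (M : ι → ModuleCat.{u} A) :
    ∑ i, (ModuleCat.ofHom (LinearMap.proj i) : ModuleCat.of A (∀ i, M i) ⟶ M i) ≫
      (ModuleCat.ofHom (LinearMap.single A (fun i => M i) i) : M i ⟶ ModuleCat.of A (∀ i, M i)) =
      𝟙 (ModuleCat.of A (∀ i, M i)) := by
  apply ModuleCat.hom_ext
  apply LinearMap.ext
  intro f
  let φ : (ModuleCat.of A (∀ i, M i) ⟶ ModuleCat.of A (∀ i, M i)) →+ (∀ i, M i) :=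
    AddMonoidHom.mk' (fun g => g.hom f) (fun _ _ => rfl)
  change φ (∑ i, _) = f
  rw [map_sum]
  exact Finset.univ_sum_single (f : ∀ i, M i)

/-- For every field `K` and every `k` there is a finite-dimensional, connected, non-semisimple
`K`-algebra `A` with `o_k(A) = ∞`. -/
theorem result (K : Type u) [Field K] (k : ℕ) :
    ∃ (A : Type u) (_ : Ring A) (_ : Algebra K A), IsAlg K A ∧ OInfinite A k := by
  obtain ⟨A, _, _, M, h1, h2, h3, h4, h5, h6, h7, h8, h9⟩ := H965R5.Rig.good_all K (k + 1)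
  refine ⟨A, inferInstance, inferInstance, ⟨h1, h2, h3, h4 (by omega)⟩, ?_⟩
  have hom0 : ∀ a b, b < a → IsEmpty (M a ≅ M b) := by
    intro a b hab
    refine ⟨fun e => ?_⟩
    have h0 := h9 a b hab 0 (by omega) (Ext.mk₀ e.hom)
    have h10 : e.hom = 0 := (Ext.mk₀_bijective _ _).1 (h0.trans (Ext.mk₀_zero _ _).symm)
    obtain ⟨x, hx⟩ := @exists_ne (M a) (h6 a) 0
    apply hx
    have h11 : 𝟙 (M a) = 0 := by rw [← e.hom_inv_id, h10, zero_comp]
    exact congrArg (fun g => g.hom x) h11
  intro N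
  refine ⟨ModuleCat.of A (∀ i : Fin N, M i), ?_, ?_, fun i => M i, ?_, ?_, ?_⟩
  · have := fun i : Fin N => h5 i
    exact Module.Finite.pi
  · intro p hp hpk z
    refine ext_tot (S := fun i : Fin N => M i) _ _ (pi_tot (fun i : Fin N => M i)) p ?_ z
    intro i j w
    rcases Nat.lt_or_ge j.1 i.1 with hij | hij
    · exact h9 i j hij p (by omega) w
    · exact h8 i j hij p hp w
  · intro i
    refine ⟨h6 i, fun e he => ?_⟩
    obtain ⟨c, hc⟩ := h7 i e
    obtain ⟨x, hx⟩ := @exists_ne (M i) (h6 i) 0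
    have h12 : (c * c - c) = 0 := by
      by_contra hne
      apply hx
      have h13 : algebraMap K A c • (algebraMap K A c • x) = algebraMap K A c • x := by
        rw [← hc, ← hc]
        exact congrArg (fun g => g.hom x) he
      have h14 : algebraMap K A (c * c - c) • x = 0 := by
        rw [map_sub, map_mul, sub_smul, mul_smul, h13, sub_self]
      calc x = algebraMap K A ((c * c - c)⁻¹ * (c * c - c)) • x := by
            rw [inv_mul_cancel₀ hne, map_one, one_smul]
        _ = 0 := by rw [map_mul, mul_smul, h14, smul_zero]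
    have h15 : c * (c - 1) = 0 := by rw [mul_sub, mul_one]; exact h12
    rcases mul_eq_zero.1 h15 with h | h
    · left
      ext m
      rw [hc, h, map_zero, zero_smul]
      rfl
    · right
      ext m
      rw [hc, sub_eq_zero.1 h, map_one, one_smul]
      rfl
  · intro i
    refine ⟨ModuleCat.ofHom (LinearMap.single A (fun i : Fin N => M i) i),
      ModuleCat.ofHom (LinearMap.proj i), ?_⟩
    ext m
    exact Pi.single_eq_same (M := fun i : Fin N => M i) i m
  · intro i j hij
    rcases Nat.lt_or_gt_of_ne (fun h => hij (Fin.ext h)) with h | h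
    · exact ⟨fun e => (hom0 j i h).false e.symm⟩
    · exact hom0 i j h

end Pool.Agent.Results.MP_b2fb47_al.KRigidInfinite
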